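import Pool.Agent.V5helper47.Ind.Dim

/-! Counting the first wrap arounds. -/

namespace Pool.Agent.V5helper47.Ind

open Finset

open Classical in
/-- all the first wrap arounds -/
noncomputable def BB (q : ℕ) : Finset ℕ := (range q).filter (fun b => ∃ v m r, Dat q v m r b)

theorem Dat.m_lt {q v m r b : ℕ} (h : Dat q v m r b) (hq : 3 ≤ q) : m < q := by
  have h4 := h.m2
  have h1 := h.v1
  have h2 := h.vm
  by_contra hc
  push Not at hc
  have : (q - 1) * (q - 1) ≤ (m - 1) * (m - 1) := Nat.mul_le_mul (by omega) (by omega)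
  have h5 : 2 * (q - 1) ≤ (q - 1) * (q - 1) := Nat.mul_le_mul_right _ (by omega)
  omega

theorem Dat.one_lt {q v m r b : ℕ} (h : Dat q v m r b) (hq : 3 ≤ q) : 1 < b := by
  have h4 := h.m_lt hq
  have h5 := h.eq
  by_contra hc
  push Not at hc
  have : m * b ≤ m * 1 := Nat.mul_le_mul_left _ hc
  omega

theorem natCast_ne_zero' {q n : ℕ} (h1 : 0 < n) (h2 : n < q) : (n : ZMod q) ≠ 0 := by
  intro h
  rw [ZMod.natCast_eq_zero_iff] at h
  exact absurd (Nat.le_of_dvd h1 h) (by omega)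

theorem card_BB_le {q p : ℕ} [hqf : Fact q.Prime] (hq2 : q ≠ 2) (hp : p.Prime)
    (hpq : ¬ p ∣ q * (q - 1)) {P : Ideal OO} (hP : P.IsMaximal) (hpP : (p : OO) ∈ P) :
    (BB q).card ≤ (Indiv (q := q) P).ncard := by
  classical
  have hq3 : 3 ≤ q := by have := hqf.out.two_le; omega
  have hex : ∀ b : ℕ, ∃ vmr : ℕ × ℕ × ℕ, b ∈ BB q → Dat q vmr.1 vmr.2.1 vmr.2.2 b := by
    intro b
    by_cases hb : b ∈ BB q
    · obtain ⟨v, m, r, h⟩ := (mem_filter.mp hb).2
      exact ⟨(v, m, r), fun _ => h⟩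
    · exact ⟨(0, 0, 0), fun h => absurd h hb⟩
  choose w hw using hex
  have hcong : ∀ b ∈ BB q, ∀ x : ℕ, (q : ℤ) ∣ ((w b).1 : ℤ) *
      ((((((w b).2.1 : ℕ) : ZMod q) - ((w b).1 : ℕ)) / ((w b).1 : ℕ) * (x : ZMod q)).val : ℕ) -
        (((w b).2.1 : ℤ) - (w b).1) * x := by
    intro b hb x
    have h := hw b hb
    have hv : (((w b).1 : ℕ) : ZMod q) ≠ 0 :=
      natCast_ne_zero' (by have := h.v1; omega) (lt_trans h.vm (h.m_lt hq3))
    rw [← ZMod.intCast_zmod_eq_zero_iff_dvd]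
    push_cast
    rw [ZMod.natCast_zmod_val]
    field_simp
    ring
  refine card_le_ncard hp hpq hP hpP (BB q) ?_
    (fun b => (((w b).2.1 : ℕ) - ((w b).1 : ℕ) : ZMod q) / ((w b).1 : ℕ)) ?_ ?_ ?_ ?_
  · intro b hb
    have h := hw b hb
    exact ⟨h.one_lt hq3, h.b_lt hqf.out.pos⟩
  · intro b hb
    have h := hw b hb
    have h1 := h.v1
    have h2 := h.vm
    have h3 := h.m_lt hq3
    refine div_ne_zero ?_ (natCast_ne_zero' (by omega) (by omega))
    rw [← Nat.cast_sub h2.le]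
    exact natCast_ne_zero' (by omega) (by omega)
  · intro b hb
    have h := hw b hb
    have h1 := h.v1
    have h2 := h.vm
    have h3 := h.m_lt hq3
    have hv : (((w b).1 : ℕ) : ZMod q) ≠ 0 := natCast_ne_zero' (by omega) (by omega)
    have hm : (((w b).2.1 : ℕ) : ZMod q) ≠ 0 := natCast_ne_zero' (by omega) (by omega)
    have : (((w b).2.1 : ℕ) - ((w b).1 : ℕ) : ZMod q) / ((w b).1 : ℕ) + 1 =
        ((w b).2.1 : ℕ) / ((w b).1 : ℕ) := by field_simp; ring
    rw [this]
    exact div_ne_zero hm hv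
  · intro b hb
    exact (hw b hb).wrap hqf.out (hcong b hb b)
  · intro b hb x hx1 hxb
    by_contra hc
    push Not at hc
    have := (hw b hb).unique hqf.out.pos hx1 hxb.le (ZMod.val_lt _) (hcong b hb x) hc
    omega

/-- the remainder -/
theorem exists_r {q l m : ℕ} (hq : q.Prime) (hm1 : 1 < m) (hmq : m < q) (hc : Nat.Coprime l m) :
    ∃ r b, r < m ∧ 0 < r ∧ m * b = q + l * r := by
  haveI : NeZero m := ⟨by omega⟩
  have hu : IsUnit (l : ZMod m) := (ZMod.isUnit_iff_coprime l m).mpr hc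
  obtain ⟨u, hu⟩ := hu
  let r := ((-(q : ZMod m)) * ((u⁻¹ : (ZMod m)ˣ) : ZMod m)).val
  have hr : r < m := ZMod.val_lt _
  have hd : m ∣ q + l * r := by
    rw [← ZMod.natCast_eq_zero_iff]
    push_cast
    rw [ZMod.natCast_zmod_val, ← hu]
    have : (u : ZMod m) * (-(q : ZMod m) * ((u⁻¹ : (ZMod m)ˣ) : ZMod m)) = -(q : ZMod m) := by
      rw [mul_comm, mul_assoc, Units.inv_mul, mul_one]
    rw [this]; ring
  obtain ⟨b, hb⟩ := hd
  refine ⟨r, b, hr, ?_, hb.symm⟩
  rcases Nat.eq_zero_or_pos r with h0 | h0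
  · exfalso
    rw [h0, mul_zero, add_zero] at hb
    have : m ∣ q := ⟨b, hb⟩
    rcases (Nat.dvd_prime hq).mp this with h | h <;> omega
  · exact h0

/-- few multiples of `l` in `(M, 2 M]` -/
theorem card_nondvd {l M : ℕ} (hl : 2 ≤ l) :
    M / 2 - 1 ≤ ((Ioc M (2 * M)).filter (fun m => ¬ l ∣ m)).card := by
  have h1 : ((Ioc M (2 * M)).filter (fun m => l ∣ m)).card +
      ((Ioc M (2 * M)).filter (fun m => ¬ l ∣ m)).card = M := by
    rw [Finset.card_filter_add_card_filter_not]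
    simp
    omega
  have h2 : ((Ioc M (2 * M)).filter (fun m => l ∣ m)).card ≤ M / 2 + 1 := by
    have h3 : ((Ioc M (2 * M)).filter (fun m => l ∣ m)).card ≤ (Ioc (M / l) (2 * M / l)).card := by
      refine Finset.card_le_card_of_injOn (fun m => m / l) ?_ ?_
      · intro m hm
        simp only [coe_filter, Set.mem_setOf_eq, mem_Ioc] at hm
        obtain ⟨⟨h1, h2⟩, k, rfl⟩ := hm
        simp only [coe_Ioc, Set.mem_Ioc]
        rw [Nat.mul_div_cancel_left _ (by omega)]
        constructor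
        · rw [Nat.div_lt_iff_lt_mul (by omega)]; linarith
        · rw [Nat.le_div_iff_mul_le (by omega)]; linarith
      · intro m hm m' hm' h
        simp only [coe_filter, Set.mem_setOf_eq, mem_Ioc] at hm hm'
        obtain ⟨_, k, rfl⟩ := hm
        obtain ⟨_, k', rfl⟩ := hm'
        simp only at h
        rw [Nat.mul_div_cancel_left _ (by omega), Nat.mul_div_cancel_left _ (by omega)] at h
        rw [h]
    rw [Nat.card_Ioc] at h3
    have h4 : 2 * M / l ≤ M / l + M / l + 1 := by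
      have := Nat.add_div_le_add_div M M l
      have h5 : 2 * M / l < M / l + M / l + 2 := by
        rw [Nat.div_lt_iff_lt_mul (by omega)]
        have h6 := Nat.lt_div_mul_add (a := M) (show 0 < l by omega)
        nlinarith
      omega
    have h5 : M / l ≤ M / 2 := Nat.div_le_div_left hl (by norm_num)
    omega
  omega

theorem lower {q M : ℕ} (hq : q.Prime) (hM : 2 ≤ M) (hMq : 4 * M ^ 3 ≤ q) :
    ((Ioc (Nat.sqrt (2 * M) + 1) M).filter Nat.Prime).card * (M / 2 - 1) ≤ 3 * (BB q).card := by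
  classical
  set y := Nat.sqrt (2 * M) + 1 with hy
  set PR := (Ioc y M).filter Nat.Prime with hPR
  let T : Finset (Σ _ : ℕ, ℕ) := PR.sigma (fun l => (Ioc M (2 * M)).filter (fun m => ¬ l ∣ m))
  have hTc : PR.card * (M / 2 - 1) ≤ T.card := by
    rw [Finset.card_sigma, ← smul_eq_mul]
    refine Finset.card_nsmul_le_sum _ _ _ ?_
    intro l hl
    exact card_nondvd (mem_filter.mp hl).2.two_le
  have hT : ∀ t ∈ T, t.1.Prime ∧ y < t.1 ∧ t.1 ≤ M ∧ M < t.2 ∧ t.2 ≤ 2 * M ∧ ¬ t.1 ∣ t.2 := by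
    intro t ht
    simp only [T, mem_sigma, mem_filter, mem_Ioc, hPR] at ht
    tauto
  have hM3 : M * M ≤ M ^ 3 := by
    have : M ^ 3 = M * M * M := by ring
    rw [this]
    exact Nat.le_mul_of_pos_right _ (by omega)
  have hmq : ∀ m, m ≤ 2 * M → m < q := by
    intro m hm
    have : 2 * M ≤ M * M := Nat.mul_le_mul_right _ hM
    have : 0 < M * M := by positivity
    omega
  have hex : ∀ t : (Σ _ : ℕ, ℕ), ∃ rb : ℕ × ℕ, t ∈ T →
      rb.1 < t.2 ∧ 0 < rb.1 ∧ t.2 * rb.2 = q + t.1 * rb.1 := by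
    intro t
    by_cases ht : t ∈ T
    · obtain ⟨h1, h2, h3, h4, h5, h6⟩ := hT t ht
      obtain ⟨r, b, hr, hr0, hb⟩ := exists_r (l := t.1) (m := t.2) hq (by omega) (hmq _ h5)
        ((Nat.Prime.coprime_iff_not_dvd h1).mpr h6)
      exact ⟨(r, b), fun _ => ⟨hr, hr0, hb⟩⟩
    · exact ⟨(0, 0), fun h => absurd h ht⟩
  choose w hw using hex
  have hdat : ∀ t ∈ T, Dat q t.1 t.2 (w t).1 (w t).2 := by
    intro t ht
    obtain ⟨h1, h2, h3, h4, h5, h6⟩ := hT t ht
    obtain ⟨h7, h8, h9⟩ := hw t ht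
    refine ⟨h1.one_lt.le, by omega, (Nat.Prime.coprime_iff_not_dvd h1).mpr h6, ?_, h7, h9⟩
    have : (t.2 - 1) * (t.2 - 1) ≤ (2 * M - 1) * (2 * M) := Nat.mul_le_mul (by omega) (by omega)
    have h10 : (2 * M - 1) * (2 * M) < 4 * (M * M) := by
      have : (2 * M - 1) * (2 * M) < (2 * M) * (2 * M) :=
        Nat.mul_lt_mul_of_pos_right (by omega) (by omega)
      nlinarith
    omega
  have himg : T.image (fun t => (w t).2) ⊆ BB q := by
    intro b hb
    obtain ⟨t, ht, rfl⟩ := mem_image.mp hb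
    exact mem_filter.mpr ⟨mem_range.mpr ((hdat t ht).b_lt hq.pos), t.1, t.2, (w t).1, hdat t ht⟩
  have hfib : T.card ≤ 3 * (T.image (fun t => (w t).2)).card := by
    refine Finset.card_le_mul_card_image _ _ ?_
    intro b _
    by_contra hc
    push Not at hc
    set F := T.filter (fun t => (w t).2 = b) with hF
    -- all second coordinates agree
    have hlt : ∀ t ∈ F, ∀ t' ∈ F, ¬ t.2 < t'.2 := by
      intro t ht t' ht' hlt
      obtain ⟨ht, hb⟩ := mem_filter.mp ht
      obtain ⟨ht', hb'⟩ := mem_filter.mp ht'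
      obtain ⟨h1, h2, h3, h4, h5, h6⟩ := hT t ht
      obtain ⟨h7, h8, h9⟩ := hw t ht
      obtain ⟨k1, k2, k3, k4, k5, k6⟩ := hT t' ht'
      obtain ⟨k7, k8, k9⟩ := hw t' ht'
      rw [hb] at h9
      rw [hb'] at k9
      have e1 : t'.1 * (w t').1 < M * (2 * M) := by
        calc t'.1 * (w t').1 < t'.1 * (2 * M) := Nat.mul_lt_mul_of_pos_left (by omega) (by omega)
          _ ≤ M * (2 * M) := Nat.mul_le_mul_right _ k3
      have e2 : (t.2 + 1) * b ≤ t'.2 * b := Nat.mul_le_mul_right _ hlt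
      have e3 : (t.2 + 1) * b = t.2 * b + b := by ring
      have e4 : b < M * (2 * M) := by omega
      have e5 : t.2 * b ≤ 2 * M * b := Nat.mul_le_mul_right _ h5
      have e6 : 2 * M * b < 2 * M * (M * (2 * M)) := Nat.mul_lt_mul_of_pos_left e4 (by omega)
      have e7 : 2 * M * (M * (2 * M)) = 4 * M ^ 3 := by ring
      omega
    have hsame : ∀ t ∈ F, ∀ t' ∈ F, t.2 = t'.2 := by
      intro t ht t' ht'
      have h1 := hlt t ht t' ht'
      have h2 := hlt t' ht' t ht
      omega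
    have hne : F.Nonempty := Finset.card_pos.mp (by omega)
    obtain ⟨t0, ht0⟩ := hne
    let L := F.image (fun t => t.1)
    have hLc : L.card = F.card := by
      refine Finset.card_image_of_injOn ?_
      intro t ht t' ht' h
      exact Sigma.ext h (heq_of_eq (hsame t ht t' ht'))
    have hLp : ∀ l ∈ L, Prime l := by
      intro l hl
      obtain ⟨t, ht, rfl⟩ := mem_image.mp hl
      exact Nat.prime_iff.mp (hT t (mem_filter.mp ht).1).1
    have hLd : ∀ l ∈ L, l ∣ t0.2 * b - q := by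
      intro l hl
      obtain ⟨t, ht, rfl⟩ := mem_image.mp hl
      obtain ⟨ht', hb⟩ := mem_filter.mp ht
      obtain ⟨h7, h8, h9⟩ := hw t ht'
      rw [hb, hsame t ht t0 ht0] at h9
      rw [h9, Nat.add_sub_cancel_left]
      exact dvd_mul_right _ _
    have hprod : ∏ l ∈ L, l ∣ t0.2 * b - q := Finset.prod_primes_dvd _ hLp hLd
    obtain ⟨ht0', hb0⟩ := mem_filter.mp ht0
    obtain ⟨h1, h2, h3, h4, h5, h6⟩ := hT t0 ht0'
    obtain ⟨h7, h8, h9⟩ := hw t0 ht0'
    rw [hb0] at h9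
    have hR : t0.2 * b - q = t0.1 * (w t0).1 := by omega
    have hRpos : 0 < t0.2 * b - q := by rw [hR]; exact Nat.mul_pos h1.pos h8
    have hRlt : t0.2 * b - q < M * (2 * M) := by
      rw [hR]
      calc t0.1 * (w t0).1 < t0.1 * (2 * M) := Nat.mul_lt_mul_of_pos_left (by omega) (by omega)
        _ ≤ M * (2 * M) := Nat.mul_le_mul_right _ h3
    have hle := Nat.le_of_dvd hRpos hprod
    have hpow : y ^ L.card ≤ ∏ l ∈ L, l := by
      refine Finset.pow_card_le_prod _ _ _ ?_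
      intro l hl
      obtain ⟨t, ht, rfl⟩ := mem_image.mp hl
      exact (hT t (mem_filter.mp ht).1).2.1.le
    have hy1 : 1 ≤ y := by omega
    have hy4 : y ^ 4 ≤ y ^ L.card := Nat.pow_le_pow_right hy1 (by omega)
    have hy2 : 2 * M < y * y := by
      have := Nat.lt_succ_sqrt (2 * M)
      simpa [hy] using this
    have : (2 * M) * (2 * M) < y ^ 4 := by
      have e : y ^ 4 = (y * y) * (y * y) := by ring
      rw [e]
      exact Nat.mul_lt_mul'' hy2 hy2
    nlinarith
  calc _ ≤ T.card := hTc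
    _ ≤ 3 * (T.image (fun t => (w t).2)).card := hfib
    _ ≤ 3 * (BB q).card := Nat.mul_le_mul_left _ (Finset.card_le_card himg)

/-- `(q + 1) / 2` is one of them -/
theorem BB_pos {q : ℕ} (hq : q.Prime) (hq2 : q ≠ 2) : 1 ≤ (BB q).card := by
  classical
  have h3 : 3 ≤ q := by have := hq.two_le; omega
  have hodd : q % 2 = 1 := by
    rcases hq.eq_two_or_odd with h | h
    · exact absurd h hq2
    · exact h
  refine Finset.card_pos.mpr ⟨(q + 1) / 2, ?_⟩
  refine mem_filter.mpr ⟨mem_range.mpr (by omega), 1, 2, 1, ?_⟩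
  exact ⟨le_rfl, by norm_num, by norm_num, by omega, by norm_num, by omega⟩

end Pool.Agent.V5helper47.Ind
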