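import Pool.Agent.V5helper47.Ind.Red

/-! The number of indivisible values is at least the size of a triangular system. -/

namespace Pool.Agent.V5helper47.Ind

open Finset Module

variable {q : ℕ} [hqf : Fact q.Prime]

/-- the odd characters with indivisible value -/
def Indiv (P : Ideal OO) : Set (DirichletCharacter ℂ q) :=
  {χ | χ (-1 : ZMod q) = -1 ∧ ∃ a b : OO, a ∉ P ∧ b ∉ P ∧
    (b : ℂ) * (-(1 / (q : ℂ)) * ∑ k ∈ Finset.Ico 1 q, (k : ℂ) * χ (k : ZMod q)) = (a : ℂ)}

omit hqf in
theorem q_not_mem {p : ℕ} (hp : p.Prime) {P : Ideal OO} (hP : P.IsMaximal)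
    (hpP : (p : OO) ∈ P) {n : ℕ} (hn : ¬ p ∣ n) : (n : OO) ∉ P := by
  intro hq
  have hcop : IsCoprime (p : ℤ) (n : ℤ) := by
    rw [Nat.isCoprime_iff_coprime]
    exact (Nat.Prime.coprime_iff_not_dvd hp).mpr hn
  obtain ⟨u, v, huv⟩ := hcop
  apply hP.ne_top
  rw [Ideal.eq_top_iff_one]
  have h1 : ((u : ℤ) : OO) * (p : OO) + ((v : ℤ) : OO) * (n : OO) = 1 := by
    exact_mod_cast congrArg (fun z : ℤ => (z : OO)) huv
  rw [← h1]
  exact P.add_mem (P.mul_mem_left _ hpP) (P.mul_mem_left _ hq)

theorem LO_mem (χ : DirichletCharacter ℂ q) {P : Ideal OO} (hodd : χ (-1) = -1)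
    (hq : (q : OO) ∉ P) (hχ : χ ∉ Indiv P) : LO χ ∈ P := by
  by_contra hL
  apply hχ
  refine ⟨hodd, -LO χ, (q : OO), ?_, hq, ?_⟩
  · intro h
    exact hL (by simpa using P.neg_mem h)
  · have hq0 : (q : ℂ) ≠ 0 := by exact_mod_cast hqf.out.ne_zero
    have : ((-LO χ : OO) : ℂ) = - Lam χ := by
      push_cast
      rw [LO_coe]
    rw [this]
    unfold Lam
    have h2 : ((q : OO) : ℂ) = (q : ℂ) := by push_cast; rfl
    rw [h2]
    field_simp

/-- The main inequality. -/
theorem card_le_ncard {p : ℕ} (hp : p.Prime) (hpq : ¬ p ∣ q * (q - 1)) {P : Ideal OO}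
    (hP : P.IsMaximal) (hpP : (p : OO) ∈ P) (B : Finset ℕ)
    (hB : ∀ b ∈ B, 1 < b ∧ b < q)
    (a : ℕ → ZMod q) (ha0 : ∀ b ∈ B, a b ≠ 0) (ha1 : ∀ b ∈ B, a b + 1 ≠ 0)
    (hw : ∀ b ∈ B, q ≤ b + (a b * (b : ZMod q)).val)
    (hn : ∀ b ∈ B, ∀ x, 1 ≤ x → x < b → x + (a b * (x : ZMod q)).val < q) :
    B.card ≤ (Indiv P : Set (DirichletCharacter ℂ q)).ncard := by
  classical
  let : Field (OO ⧸ P) := Ideal.Quotient.field P
  have hq0 : (q : OO) ∉ P := q_not_mem hp hP hpP (fun h => hpq (h.mul_right _))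
  have hq1 : ((q - 1 : ℕ) : OO) ∉ P := q_not_mem hp hP hpP (fun h => hpq (h.mul_left _))
  let π := Ideal.Quotient.mk P
  have hπq : π (q : OO) ≠ 0 := by rwa [Ne, Ideal.Quotient.eq_zero_iff_mem]
  have hπq1 : π ((q - 1 : ℕ) : OO) ≠ 0 := by rwa [Ne, Ideal.Quotient.eq_zero_iff_mem]
  let φ : DirichletCharacter ℂ q → ((ZMod q)ˣ → OO ⧸ P) := fun χ x => π (chO χ (x : ZMod q)⁻¹)
  have hfin : (Indiv P : Set (DirichletCharacter ℂ q)).Finite := Set.toFinite _
  let T : Finset ((ZMod q)ˣ → OO ⧸ P) := insert (fun _ => 1) (hfin.toFinset.image φ)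
  let W := Submodule.span (OO ⧸ P) (T : Set ((ZMod q)ˣ → OO ⧸ P))
  have hWfin : FiniteDimensional (OO ⧸ P) W := FiniteDimensional.span_finset _ T
  have hWle : finrank (OO ⧸ P) W ≤ (Indiv P : Set (DirichletCharacter ℂ q)).ncard + 1 := by
    calc finrank (OO ⧸ P) W ≤ T.card := finrank_span_finset_le_card T
      _ ≤ (hfin.toFinset.image φ).card + 1 := Finset.card_insert_le _ _
      _ ≤ hfin.toFinset.card + 1 := by gcongr; exact Finset.card_image_le
      _ = _ := by rw [Set.ncard_eq_toFinset_card _ hfin]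
  -- the translates
  have hone : (fun _ => 1 : (ZMod q)ˣ → OO ⧸ P) ∈ W :=
    Submodule.subset_span (by simp [T])
  have hF : ∀ u : ZMod q, u ≠ 0 →
      (fun x : (ZMod q)ˣ => π (((u * (x : ZMod q)).val : ℕ) : OO)) ∈ W := by
    intro u hu
    have h1 : (π ((q - 1 : ℕ) : OO)) •
        (fun x : (ZMod q)ˣ => π (((u * (x : ZMod q)).val : ℕ) : OO)) =
        ∑ χ : DirichletCharacter ℂ q, (π (LO χ) * π (chO χ u⁻¹)) • φ χ := by
      funext x
      rw [Pi.smul_apply, Finset.sum_apply]
      have h2 := congrArg π (expandO u (x : ZMod q) x.ne_zero hu)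
      rw [map_mul, map_sum] at h2
      rw [smul_eq_mul, h2]
      refine Finset.sum_congr rfl ?_
      intro χ _
      rw [map_mul, map_mul]
      rfl
    have h3 : (∑ χ : DirichletCharacter ℂ q, (π (LO χ) * π (chO χ u⁻¹)) • φ χ) ∈ W := by
      refine Submodule.sum_mem _ ?_
      intro χ _
      by_cases hχ1 : χ = 1
      · refine Submodule.smul_mem _ _ ?_
        have : φ χ = fun _ => 1 := by
          funext x
          have : chO χ ((x : ZMod q)⁻¹) = 1 := by
            apply Subtype.ext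
            rw [hχ1, chO_coe]
            have hu : IsUnit ((x : ZMod q)⁻¹) := isUnit_iff_ne_zero.mpr (inv_ne_zero x.ne_zero)
            rw [MulChar.one_apply hu]
            rfl
          change π (chO χ ((x : ZMod q)⁻¹)) = 1
          rw [this, map_one]
        rw [this]
        exact hone
      · rcases (χ.even_or_odd : _) with he | ho
        · have : LO χ = 0 := by
            apply Subtype.ext
            rw [LO_coe, Lam_even χ he hχ1]
            rfl
          rw [this, map_zero, zero_mul, zero_smul]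
          exact W.zero_mem
        · by_cases hχ : χ ∈ Indiv P
          · refine Submodule.smul_mem _ _ (Submodule.subset_span ?_)
            simp only [T, Finset.coe_insert, Finset.coe_image]
            right
            exact ⟨χ, by simpa using hχ, rfl⟩
          · have : π (LO χ) = 0 := by
              rw [Ideal.Quotient.eq_zero_iff_mem]
              exact LO_mem χ ho hq0 hχ
            rw [this, zero_mul, zero_smul]
            exact W.zero_mem
    rw [← h1] at h3
    have h4 := W.smul_mem (π ((q - 1 : ℕ) : OO))⁻¹ h3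
    rwa [smul_smul, inv_mul_cancel₀ hπq1, one_smul] at h4
  -- the functions of the system
  let pt : ℕ → (ZMod q)ˣ := fun b => if h : (b : ZMod q) ≠ 0 then Units.mk0 (b : ZMod q) h else 1
  have hpt : ∀ b, 1 ≤ b → b < q → ((pt b : (ZMod q)ˣ) : ZMod q) = (b : ZMod q) := by
    intro b h1 h2
    have hne : (b : ZMod q) ≠ 0 := by
      intro h
      rw [ZMod.natCast_eq_zero_iff] at h
      exact absurd (Nat.le_of_dvd (by omega) h) (by omega)
    simp only [pt]
    rw [dif_pos hne]
    rfl
  let g : ℕ → (ZMod q)ˣ → OO ⧸ P := fun b x =>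
    π (((a b * (x : ZMod q)).val : ℕ) : OO) + π (((1 * (x : ZMod q)).val : ℕ) : OO) -
      π ((((a b + 1) * (x : ZMod q)).val : ℕ) : OO)
  have hgW : ∀ b ∈ B, g b ∈ W := by
    intro b hb
    exact W.sub_mem (W.add_mem (hF _ (ha0 b hb)) (hF 1 one_ne_zero)) (hF _ (ha1 b hb))
  have hval : ∀ b x : ℕ, 1 ≤ x → x < q →
      (a b * (x : ZMod q)).val + x = ((a b + 1) * (x : ZMod q)).val +
        q * (if q ≤ x + (a b * (x : ZMod q)).val then 1 else 0) := by
    intro b x h1 h2
    have e1 : ((x : ZMod q)).val = x := ZMod.val_cast_of_lt h2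
    have e2 : ((a b + 1) * (x : ZMod q)).val = ((a b * (x : ZMod q)).val + x) % q := by
      rw [add_mul, one_mul, ZMod.val_add, e1]
    have h3 := ZMod.val_lt (a b * (x : ZMod q))
    rw [e2]
    split_ifs with h
    · rw [Nat.mod_eq_sub_mod (by omega), Nat.mod_eq_of_lt (by omega)]
      omega
    · rw [Nat.mod_eq_of_lt (by omega)]
      omega
  have hg : ∀ b x : ℕ, 1 ≤ x → x < q → g b (pt x) =
      π (q : OO) * (if q ≤ x + (a b * (x : ZMod q)).val then 1 else 0) := by
    intro b x h1 h2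
    simp only [g]
    rw [hpt x h1 h2, one_mul, ZMod.val_cast_of_lt h2]
    have h3 := hval b x h1 h2
    have h4 : (((a b * (x : ZMod q)).val : ℕ) : OO) + ((x : ℕ) : OO) =
        ((((a b + 1) * (x : ZMod q)).val : ℕ) : OO) + (q : OO) *
          (if q ≤ x + (a b * (x : ZMod q)).val then 1 else 0) := by
      have := congrArg (fun n : ℕ => (n : OO)) h3
      push_cast at this
      exact this
    rw [← map_add, h4, map_add, map_mul]
    split_ifs <;> simp
  let g' : ℕ → (ZMod q)ˣ → OO ⧸ P := fun b => if b = 1 then (fun _ => 1) else g b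
  have h1B : 1 ∉ B := fun h => absurd (hB 1 h).1 (lt_irrefl 1)
  have hcard := card_le_finrank W (insert 1 B) pt g' ?_ ?_ ?_
  · rw [Finset.card_insert_of_notMem h1B] at hcard
    omega
  · intro b hb
    rcases Finset.mem_insert.mp hb with rfl | hb
    · simp only [g', if_true]
      exact hone
    · simp only [g']
      rw [if_neg (by rintro rfl; exact h1B hb)]
      exact hgW b hb
  · intro b hb
    rcases Finset.mem_insert.mp hb with rfl | hb
    · simp only [g', if_true]
      exact one_ne_zero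
    · obtain ⟨h1, h2⟩ := hB b hb
      simp only [g']
      rw [if_neg (by rintro rfl; exact h1B hb), hg b b h1.le h2, if_pos (hw b hb), mul_one]
      exact hπq
  · intro b hb x hx hxb
    have hx1 : 1 ≤ x := by
      rcases Finset.mem_insert.mp hx with rfl | hx
      · exact le_rfl
      · exact (hB x hx).1.le
    have hb' : b ∈ B := by
      rcases Finset.mem_insert.mp hb with rfl | hb
      · omega
      · exact hb
    obtain ⟨h1, h2⟩ := hB b hb'
    simp only [g']
    rw [if_neg (by rintro rfl; exact h1B hb'), hg b x hx1 (by omega),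
      if_neg (by have := hn b hb' x hx1 hxb; omega), mul_zero]

end Pool.Agent.V5helper47.Ind
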