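import Mathlib

/-! Residues with a short multiple: the first wrap around. -/

namespace Pool.Agent.V5helper47.Ind

/-- The data `(v, m, r, b)`: `m b = q + v r` with `v, r < m`, `v` prime to `m`,
`(m - 1) ^ 2 < q`. -/
structure Dat (q v m r b : ℕ) : Prop where
  v1 : 1 ≤ v
  vm : v < m
  cop : Nat.Coprime v m
  m2 : (m - 1) * (m - 1) < q
  rm : r < m
  eq : m * b = q + v * r

variable {q v m r b : ℕ}

theorem Dat.vr (h : Dat q v m r b) : v * r < q := by
  have h2 := h.vm
  have h3 := h.rm
  have h4 := h.m2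
  have : v * r ≤ (m - 1) * (m - 1) := Nat.mul_le_mul (by omega) (by omega)
  omega

theorem Dat.b_lt (h : Dat q v m r b) (hq : 0 < q) : b < q := by
  have h0 := h.vr
  have h1 := h.v1
  have h2 := h.vm
  have h5 := h.eq
  by_contra hc
  push Not at hc
  have : 2 * q ≤ m * b := Nat.mul_le_mul (by omega) hc
  omega

theorem Dat.r_lt (h : Dat q v m r b) : r < b := by
  have h1 := h.v1
  have h2 := h.vm
  have h3 := h.rm
  have h4 := h.m2
  have h5 := h.eq
  by_contra hc
  push Not at hc
  have h6 : m * b ≤ m * r := Nat.mul_le_mul_left _ hc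
  obtain ⟨t, rfl⟩ : ∃ t, m = v + t := ⟨m - v, by omega⟩
  have h7 : (v + t) * r = v * r + t * r := by ring
  have h8 : t * r ≤ (v + t - 1) * (v + t - 1) := Nat.mul_le_mul (by omega) (by omega)
  omega

/-- If `y ≡ (m - v) / v * x` modulo `q`, `1 ≤ x ≤ b` and `x + y ≥ q`, `y < q`, then `x = b`. -/
theorem Dat.unique (h : Dat q v m r b) (hq : 0 < q) {x y : ℕ} (hx1 : 1 ≤ x) (hxb : x ≤ b)
    (hyq : y < q) (hcong : (q : ℤ) ∣ (v : ℤ) * y - ((m : ℤ) - v) * x) (hs : q ≤ x + y) :
    x = b := by
  have h0 := h.vr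
  have h1 := h.v1
  have h2 := h.vm
  have h3 := h.rm
  have h4 := h.m2
  have h5 := h.eq
  obtain ⟨t, rfl⟩ : ∃ t, m = v + t := ⟨m - v, by omega⟩
  obtain ⟨s, hs'⟩ : ∃ s, q = y + s := ⟨q - y, by omega⟩
  have hs1 : 1 ≤ s := by omega
  have hsx : s ≤ x := by omega
  have hdvd : q ∣ v * s + t * x := by
    have : (q : ℤ) ∣ ((v * s + t * x : ℕ) : ℤ) := by
      have e : ((v * s + t * x : ℕ) : ℤ) = (q : ℤ) * v - ((v : ℤ) * y - (((v + t : ℕ) : ℤ) - v) * x) := by
        have : (q : ℤ) = y + s := by exact_mod_cast hs'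
        rw [this]; push_cast; ring
      rw [e]
      exact dvd_sub (dvd_mul_right _ _) hcong
    exact_mod_cast this
  have hle : v * s + t * x ≤ (v + t) * b := by
    calc v * s + t * x ≤ v * x + t * x := by gcongr
      _ = (v + t) * x := by ring
      _ ≤ (v + t) * b := Nat.mul_le_mul_left _ hxb
  have hpos : 0 < v * s + t * x := by positivity
  have heq : v * s + t * x = q := by
    obtain ⟨c, hc⟩ := hdvd
    have hc2 : c < 2 := by
      by_contra hcc
      push Not at hcc
      have : q * 2 ≤ q * c := Nat.mul_le_mul_left _ hcc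
      omega
    have hc1 : 0 < c := by
      rcases Nat.eq_zero_or_pos c with rfl | h'
      · omega
      · exact h'
    have : c = 1 := by omega
    subst this
    omega
  have hrb := h.r_lt
  -- `t b + v (b - r) = q`
  have h6 : (t : ℤ) * (b - x) = v * (s + r - b) := by
    have e1 : (v : ℤ) * s + t * x = q := by exact_mod_cast heq
    have e2 : ((v : ℤ) + t) * b = q + v * r := by exact_mod_cast h5
    linarith
  have hcop : IsCoprime (v : ℤ) (t : ℤ) := by
    have := h.cop
    rw [Nat.coprime_self_add_right] at this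
    exact_mod_cast Nat.isCoprime_iff_coprime.mpr this
  have hdv : (v : ℤ) ∣ (b : ℤ) - x := by
    have : (v : ℤ) ∣ t * ((b : ℤ) - x) := ⟨_, h6⟩
    exact hcop.dvd_of_dvd_mul_left this
  obtain ⟨j, hj⟩ := hdv
  have hv0 : (0 : ℤ) < v := by exact_mod_cast h1
  have h7 : (s : ℤ) + r - b = t * j := by
    have : (v : ℤ) * (s + r - b) = v * (t * j) := by rw [← h6, hj]; ring
    exact mul_left_cancel₀ hv0.ne' this
  have hj0 : 0 ≤ j := by
    by_contra hc
    push Not at hc
    have : (v : ℤ) * j < 0 := mul_neg_of_pos_of_neg hv0 hc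
    have : (x : ℤ) ≤ b := by exact_mod_cast hxb
    linarith
  have h8 : ((v : ℤ) + t) * j ≤ r := by
    have : (s : ℤ) ≤ x := by exact_mod_cast hsx
    nlinarith
  have hj1 : j < 1 := by
    by_contra hc
    push Not at hc
    have h9 : ((v : ℤ) + t) * 1 ≤ ((v : ℤ) + t) * j := mul_le_mul_of_nonneg_left hc (by positivity)
    have h10 : (r : ℤ) < v + t := by exact_mod_cast h3
    linarith
  have : j = 0 := by omega
  subst this
  have : (b : ℤ) = x := by linarith
  exact_mod_cast this.symm

/-- For `x = b` there is a wrap around. -/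
theorem Dat.wrap (h : Dat q v m r b) (hq : q.Prime) {y : ℕ}
    (hcong : (q : ℤ) ∣ (v : ℤ) * y - ((m : ℤ) - v) * b) : q ≤ b + y := by
  have h0 := h.vr
  have h1 := h.v1
  have h2 := h.vm
  have h3 := h.rm
  have h4 := h.m2
  have h5 := h.eq
  have hrb := h.r_lt
  have hbq := h.b_lt hq.pos
  have hvq : v < q := by
    have h8 : v * 1 ≤ (m - 1) * (m - 1) := Nat.mul_le_mul (by omega) (by omega)
    omega
  have h6 : (q : ℤ) ∣ v * (y + b - r) := by
    have e : (v : ℤ) * (y + b - r) = (v * y - ((m : ℤ) - v) * b) + q := by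
      have e2 : (m : ℤ) * b = q + v * r := by exact_mod_cast h5
      linarith
    rw [e]
    exact dvd_add hcong dvd_rfl
  have hqp : Prime (q : ℤ) := Nat.prime_iff_prime_int.mp hq
  rcases hqp.dvd_or_dvd h6 with h7 | h7
  · exfalso
    have : q ∣ v := by exact_mod_cast h7
    exact absurd (Nat.le_of_dvd (by omega) this) (by omega)
  · obtain ⟨c, hc⟩ := h7
    have hq0 : (0 : ℤ) < q := by exact_mod_cast hq.pos
    have hrb' : (r : ℤ) < b := by exact_mod_cast hrb
    have hc1 : 0 < c := by
      by_contra hcc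
      push Not at hcc
      have : (q : ℤ) * c ≤ 0 := mul_nonpos_of_nonneg_of_nonpos hq0.le hcc
      have hy : (0 : ℤ) ≤ y := by positivity
      linarith
    have : (q : ℤ) * 1 ≤ q * c := mul_le_mul_of_nonneg_left (by omega) hq0.le
    have hr : (0 : ℤ) ≤ r := by positivity
    have : (q : ℤ) ≤ b + y := by linarith
    exact_mod_cast this

end Pool.Agent.V5helper47.Ind
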