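import Mathlib

/-! A triangular system of functions. -/

namespace Pool.Agent.V5helper47.Ind

open Module

/-- If for every `b` in a finite set of natural numbers there is a function in `W` which vanishes
at the points with smaller indices and not at the point with index `b`, then the dimension of `W`
is at least the number of indices. -/
theorem card_le_finrank {k α : Type*} [Field k] (W : Submodule k (α → k)) [FiniteDimensional k W]
    (B : Finset ℕ) (pt : ℕ → α) (g : ℕ → α → k) (hg : ∀ b ∈ B, g b ∈ W)
    (h1 : ∀ b ∈ B, g b (pt b) ≠ 0) (h0 : ∀ b ∈ B, ∀ b' ∈ B, b' < b → g b (pt b') = 0) :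
    B.card ≤ finrank k W := by
  classical
  have hli : LinearIndependent k (fun b : B => (⟨g b, hg b b.2⟩ : W)) := by
    rw [Fintype.linearIndependent_iff]
    intro c hc
    have hc' : ∀ x : α, ∑ b : B, c b * g b x = 0 := by
      intro x
      have := congrArg (fun w : W => (w : α → k) x) hc
      simpa [Finset.sum_apply] using this
    by_contra hne
    push Not at hne
    obtain ⟨i, hi⟩ := hne
    -- minimal index with nonzero coefficient
    let S : Finset B := Finset.univ.filter (fun b => c b ≠ 0)
    have hS : S.Nonempty := ⟨i, by simp [S, hi]⟩
    obtain ⟨b, hbS, hmin⟩ := S.exists_min_image (fun b => (b : ℕ)) hS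
    have hb : c b ≠ 0 := (Finset.mem_filter.mp hbS).2
    have h := hc' (pt b)
    rw [Finset.sum_eq_single b] at h
    · exact (mul_ne_zero hb (h1 b b.2)) h
    · intro b' _ hne'
      by_cases hlt : (b' : ℕ) < b
      · have : c b' = 0 := by
          by_contra hc0
          have := hmin b' (Finset.mem_filter.mpr ⟨Finset.mem_univ _, hc0⟩)
          omega
        rw [this, zero_mul]
      · have hgt : (b : ℕ) < b' := by
          rcases lt_trichotomy (b' : ℕ) b with h | h | h
          · exact absurd h hlt
          · exact absurd (Subtype.ext h) hne'
          · exact h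
        rw [h0 b' b'.2 b b.2 hgt, mul_zero]
    · intro h'; exact absurd (Finset.mem_univ b) h'
  simpa using hli.fintype_card_le_finrank

end Pool.Agent.V5helper47.Ind
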