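import Pool.Agent.V5helper47.Ind.Cnt

/-! The numerical lower bound. -/

namespace Pool.Agent.V5helper47.Ind

open Finset Real

theorem pow4 {x : ℝ} (hx : 0 ≤ x) : (√(√x)) ^ 4 = x := by
  have h1 : (√(√x)) ^ 2 = √x := Real.sq_sqrt (Real.sqrt_nonneg x)
  have h2 : (√x) ^ 2 = x := Real.sq_sqrt hx
  calc (√(√x)) ^ 4 = ((√(√x)) ^ 2) ^ 2 := by ring
    _ = x := by rw [h1, h2]

theorem card_primes (M : ℕ) : Nat.primeCounting M ≤
    ((Ioc (Nat.sqrt (2 * M) + 1) M).filter Nat.Prime).card + (Nat.sqrt (2 * M) + 1) := by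
  classical
  rw [← Nat.primesLE_card_eq_primeCounting]
  have : Nat.primesLE M ⊆ ((Ioc (Nat.sqrt (2 * M) + 1) M).filter Nat.Prime) ∪
      Ioc 0 (Nat.sqrt (2 * M) + 1) := by
    intro l hl
    rw [Nat.mem_primesLE] at hl
    rw [mem_union, mem_filter, mem_Ioc, mem_Ioc]
    have := hl.2.pos
    by_cases h : Nat.sqrt (2 * M) + 1 < l
    · left; exact ⟨⟨h, hl.1⟩, hl.2⟩
    · right; omega
  refine (Finset.card_le_card this).trans ((Finset.card_union_le _ _).trans ?_)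
  simp

/-- many primes -/
theorem many_primes {M : ℕ} (hM : 160000 ≤ M) :
    (M : ℝ) / (4 * Real.log M) ≤ (((Ioc (Nat.sqrt (2 * M) + 1) M).filter Nat.Prime).card : ℝ) := by
  have hMr : (160000 : ℝ) ≤ M := by exact_mod_cast hM
  have hM0 : (0 : ℝ) ≤ M := by linarith
  set s : ℝ := √(√(M : ℝ)) with hs
  have hs4 : s ^ 4 = M := pow4 hM0
  have hs0 : 0 ≤ s := Real.sqrt_nonneg _
  have hs20 : 20 ≤ s := by
    by_contra hc
    push Not at hc
    have : s ^ 4 < 20 ^ 4 := pow_lt_pow_left₀ hc hs0 (by norm_num)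
    rw [hs4] at this
    norm_num at this
    linarith
  have hlogs : Real.log s ≤ s - 1 := Real.log_le_sub_one_of_pos (by linarith)
  have hlogM : Real.log M = 4 * Real.log s := by rw [← hs4, Real.log_pow]; norm_num
  have hlogpos : 0 < Real.log M := Real.log_pos (by linarith)
  have hlogM1 : Real.log (M + 1) ≤ 1 + 4 * s := by
    have h1 : Real.log ((M : ℝ) + 1) ≤ Real.log (2 * M) := Real.log_le_log (by linarith) (by linarith)
    rw [Real.log_mul (by norm_num) (by linarith)] at h1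
    have h2 : Real.log 2 ≤ 1 := by have := Real.log_two_lt_d9; linarith
    linarith
  have hpi := Chebyshev.pi_ge M
  have hcard := card_primes M
  have hcard' : (Nat.primeCounting M : ℝ) ≤
      (((Ioc (Nat.sqrt (2 * M) + 1) M).filter Nat.Prime).card : ℝ) + ((Nat.sqrt (2 * M) : ℕ) + 1 : ℝ) := by
    exact_mod_cast hcard
  have hsqrt : ((Nat.sqrt (2 * M) : ℕ) : ℝ) ≤ 2 * s ^ 2 := by
    have h1 : (Nat.sqrt (2 * M)) ^ 2 ≤ 2 * M := Nat.sqrt_le' _
    have h2 : ((Nat.sqrt (2 * M) : ℕ) : ℝ) ^ 2 ≤ (2 * s ^ 2) ^ 2 := by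
      have : ((Nat.sqrt (2 * M) : ℕ) : ℝ) ^ 2 ≤ 2 * M := by exact_mod_cast h1
      have e : (2 * s ^ 2) ^ 2 = 4 * M := by rw [← hs4]; ring
      rw [e]; linarith
    exact le_of_sq_le_sq h2 (by positivity)
  -- combine
  have key : (M : ℝ) / (4 * Real.log M) + (2 * s ^ 2 + 1) ≤ (M * Real.log 2 - Real.log (M + 1)) / Real.log M := by
    rw [le_div_iff₀ hlogpos]
    have e1 : ((M : ℝ) / (4 * Real.log M) + (2 * s ^ 2 + 1)) * Real.log M =
        M / 4 + (2 * s ^ 2 + 1) * Real.log M := by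
      field_simp
    rw [e1]
    have h2 : (0.69 : ℝ) ≤ Real.log 2 := by have := Real.log_two_gt_d9; linarith
    have h3 : (2 * s ^ 2 + 1) * Real.log M ≤ (2 * s ^ 2 + 1) * (4 * s) := by
      refine mul_le_mul_of_nonneg_left ?_ (by positivity)
      rw [hlogM]; linarith
    have h4 : (M : ℝ) * 0.69 ≤ M * Real.log 2 := mul_le_mul_of_nonneg_left h2 hM0
    have h5 : s ^ 4 / 4 + (2 * s ^ 2 + 1) * (4 * s) + (1 + 4 * s) ≤ s ^ 4 * 0.69 := by
      nlinarith [pow_nonneg hs0 3, mul_nonneg (mul_nonneg hs0 hs0) (sub_nonneg.mpr hs20),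
        mul_nonneg (pow_nonneg hs0 3) (sub_nonneg.mpr hs20), mul_nonneg hs0 (sub_nonneg.mpr hs20)]
    rw [hs4] at h5
    linarith
  linarith

/-- the bound in terms of `M` -/
theorem BB_ge {q M : ℕ} (hq : q.Prime) (hM : 160000 ≤ M) (hMq : 4 * M ^ 3 ≤ q) :
    (M : ℝ) ^ 2 / (48 * Real.log M) ≤ (BB q).card := by
  have hMr : (160000 : ℝ) ≤ M := by exact_mod_cast hM
  have h1 := lower hq (by omega) hMq
  have h2 := many_primes hM
  have hlogpos : 0 < Real.log M := Real.log_pos (by linarith)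
  have h3 : (M : ℝ) / 4 ≤ ((M / 2 - 1 : ℕ) : ℝ) := by
    have h4 : M ≤ 4 * (M / 2 - 1) := by omega
    have h5 : (M : ℝ) ≤ 4 * ((M / 2 - 1 : ℕ) : ℝ) := by exact_mod_cast h4
    linarith
  have h6 : ((((Ioc (Nat.sqrt (2 * M) + 1) M).filter Nat.Prime).card : ℝ)) * ((M / 2 - 1 : ℕ) : ℝ) ≤
      3 * ((BB q).card : ℝ) := by exact_mod_cast h1
  have h7 : (M : ℝ) / (4 * Real.log M) * (M / 4) ≤ 3 * ((BB q).card : ℝ) := by
    refine le_trans ?_ h6
    refine mul_le_mul h2 h3 (by positivity) (by positivity)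
  have e : (M : ℝ) / (4 * Real.log M) * (M / 4) = 3 * ((M : ℝ) ^ 2 / (48 * Real.log M)) := by
    field_simp
    norm_num
  rw [e] at h7
  linarith

/-- the bound in terms of `q` -/
theorem BB_ge' : ∃ c : ℝ, 0 < c ∧ ∀ q : ℕ, q.Prime → q ≠ 2 →
    c * (q : ℝ) ^ (2 / 3 : ℝ) / Real.log q ≤ (BB q).card := by
  set Q : ℝ := 4 * 160001 ^ 3 with hQ
  have hQ1 : (1 : ℝ) < Q := by rw [hQ]; norm_num
  refine ⟨1 / (2000 * Q), by positivity, ?_⟩
  intro q hq hq2
  have hq3 : 3 ≤ q := by have := hq.two_le; omega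
  have hq3' : (3 : ℝ) ≤ q := by exact_mod_cast hq3
  have hq0 : (0 : ℝ) ≤ q := by linarith
  have hlogq : 1 < Real.log q := by
    have h1 : Real.exp 1 < 3 := by have := Real.exp_one_lt_d9; linarith
    rw [← Real.log_exp 1]
    exact Real.log_lt_log (Real.exp_pos 1) (by linarith)
  by_cases hlarge : Q ≤ q
  · -- large `q`
    set X : ℝ := ((q : ℝ) / 4) ^ (1 / 3 : ℝ) with hX
    have hX0 : 0 ≤ X := by positivity
    have hX3 : X ^ 3 = (q : ℝ) / 4 := by
      rw [hX, ← Real.rpow_natCast, ← Real.rpow_mul (by positivity)]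
      norm_num
    have hXbig : 160001 ≤ X := by
      by_contra hc
      push Not at hc
      have : X ^ 3 < 160001 ^ 3 := pow_lt_pow_left₀ hc hX0 (by norm_num)
      rw [hX3] at this
      rw [hQ] at hlarge
      linarith
    set M := ⌊X⌋₊ with hM
    have hMX : (M : ℝ) ≤ X := Nat.floor_le hX0
    have hXM : X < M + 1 := Nat.lt_floor_add_one X
    have hMbig : 160000 ≤ M := by
      have : (160000 : ℝ) < M + 1 := by linarith
      have : (160000 : ℕ) < M + 1 := by exact_mod_cast this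
      omega
    have hMr : (160000 : ℝ) ≤ M := by exact_mod_cast hMbig
    have hMq : 4 * M ^ 3 ≤ q := by
      have : (M : ℝ) ^ 3 ≤ X ^ 3 := pow_le_pow_left₀ (by positivity) hMX 3
      rw [hX3] at this
      have : (4 : ℝ) * M ^ 3 ≤ q := by linarith
      exact_mod_cast this
    refine le_trans ?_ (BB_ge hq hMbig hMq)
    have hlogM : 0 < Real.log M := Real.log_pos (by linarith)
    have hlogMq : Real.log M ≤ Real.log q := by
      refine Real.log_le_log (by linarith) ?_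
      have : M ≤ 4 * M ^ 3 := by nlinarith [Nat.one_le_iff_ne_zero.mpr (show M ≠ 0 by omega), Nat.pos_of_ne_zero (show M ≠ 0 by omega), sq_nonneg M, Nat.pow_le_pow_right (show 0 < M by omega) (show 1 ≤ 3 by norm_num)]
      exact_mod_cast this.trans hMq
    have h23 : (q : ℝ) ^ (2 / 3 : ℝ) ≤ 10 * (M : ℝ) ^ 2 := by
      have e1 : (q : ℝ) ^ (2 / 3 : ℝ) = (4 : ℝ) ^ (2 / 3 : ℝ) * X ^ 2 := by
        have : (q : ℝ) = 4 * (q / 4) := by ring
        rw [this, Real.mul_rpow (by norm_num) (by positivity), hX, ← Real.rpow_natCast,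
          ← Real.rpow_mul (by positivity)]
        norm_num
      have e2 : (4 : ℝ) ^ (2 / 3 : ℝ) ≤ 4 := by
        calc (4 : ℝ) ^ (2 / 3 : ℝ) ≤ (4 : ℝ) ^ (1 : ℝ) :=
              Real.rpow_le_rpow_of_exponent_le (by norm_num) (by norm_num)
          _ = 4 := Real.rpow_one 4
      have e3 : X ^ 2 ≤ 2 * (M : ℝ) ^ 2 := by nlinarith
      rw [e1]
      calc (4 : ℝ) ^ (2 / 3 : ℝ) * X ^ 2 ≤ 4 * (2 * (M : ℝ) ^ 2) := by gcongr
        _ ≤ 10 * (M : ℝ) ^ 2 := by nlinarith [sq_nonneg (M : ℝ)]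
    have h5 : 1 / (2000 * Q) * (q : ℝ) ^ (2 / 3 : ℝ) ≤ (M : ℝ) ^ 2 / 48 := by
      calc 1 / (2000 * Q) * (q : ℝ) ^ (2 / 3 : ℝ) ≤ 1 / 2000 * (10 * (M : ℝ) ^ 2) := by
            gcongr
            linarith
        _ ≤ (M : ℝ) ^ 2 / 48 := by nlinarith [sq_nonneg (M : ℝ)]
    calc 1 / (2000 * Q) * (q : ℝ) ^ (2 / 3 : ℝ) / Real.log q
        ≤ ((M : ℝ) ^ 2 / 48) / Real.log q := by gcongr
      _ ≤ ((M : ℝ) ^ 2 / 48) / Real.log M := by gcongr
      _ = (M : ℝ) ^ 2 / (48 * Real.log M) := by rw [div_div]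
  · push Not at hlarge
    have h1 : (1 : ℝ) ≤ (BB q).card := by exact_mod_cast BB_pos hq hq2
    refine le_trans ?_ h1
    rw [div_le_one (by linarith)]
    have h2 : (q : ℝ) ^ (2 / 3 : ℝ) ≤ Q := by
      calc (q : ℝ) ^ (2 / 3 : ℝ) ≤ (q : ℝ) ^ (1 : ℝ) :=
            Real.rpow_le_rpow_of_exponent_le (by linarith) (by norm_num)
        _ = q := Real.rpow_one _
        _ ≤ Q := hlarge.le
    have h3 : 1 / (2000 * Q) * (q : ℝ) ^ (2 / 3 : ℝ) ≤ 1 / (2000 * Q) * Q := by gcongr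
    have h4 : 1 / (2000 * Q) * Q = 1 / 2000 := by field_simp
    linarith

end Pool.Agent.V5helper47.Ind
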