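import Pool.Agent.V5helper47.Ind.Lin
import Pool.Agent.V5helper47.Ind.Lat

/-! Reduction of the values of Dirichlet characters at a prime of the algebraic integers. -/

namespace Pool.Agent.V5helper47.Ind

open Finset Module

/-- the algebraic integers -/
abbrev OO := integralClosure ℤ ℂ

variable {q : ℕ} [hqf : Fact q.Prime]

/-- `∑ k χ(k)` -/
noncomputable def Lam (χ : DirichletCharacter ℂ q) : ℂ := ∑ k ∈ Ico 1 q, (k : ℂ) * χ (k : ZMod q)

theorem chi_integral (χ : DirichletCharacter ℂ q) (x : ZMod q) : χ x ∈ integralClosure ℤ ℂ := by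
  rw [mem_integralClosure_iff]
  by_cases hx : x = 0
  · subst hx
    rw [MulChar.map_zero]
    exact isIntegral_zero
  · have h1 : (χ x) ^ (q - 1) = 1 := by
      rw [← map_pow, ZMod.pow_card_sub_one_eq_one hx, map_one]
    have h2 : 0 < q - 1 := by have := hqf.out.two_le; omega
    refine IsIntegral.of_pow h2 ?_
    rw [h1]
    exact isIntegral_one

/-- value in the algebraic integers -/
noncomputable def chO (χ : DirichletCharacter ℂ q) (x : ZMod q) : OO := ⟨χ x, chi_integral χ x⟩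

@[simp] theorem chO_coe (χ : DirichletCharacter ℂ q) (x : ZMod q) : (chO χ x : ℂ) = χ x := rfl

/-- `∑ k χ(k)` in the algebraic integers -/
noncomputable def LO (χ : DirichletCharacter ℂ q) : OO := ∑ k ∈ Ico 1 q, (k : OO) * chO χ (k : ZMod q)

theorem LO_coe (χ : DirichletCharacter ℂ q) : (LO χ : ℂ) = Lam χ := by
  unfold LO Lam
  push_cast
  rfl

theorem Lam_eq (χ : DirichletCharacter ℂ q) : Lam χ = ∑ z : ZMod q, (z.val : ℂ) * χ z := by
  have hq := hqf.out
  have h0 : ∑ z : ZMod q, (z.val : ℂ) * χ z = ∑ z ∈ univ.erase (0 : ZMod q), (z.val : ℂ) * χ z := by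
    rw [← Finset.add_sum_erase _ _ (mem_univ (0 : ZMod q))]
    simp
  rw [h0]
  unfold Lam
  refine Finset.sum_nbij' (fun k => (k : ZMod q)) (fun z => z.val) ?_ ?_ ?_ ?_ ?_
  · intro k hk
    rw [mem_Ico] at hk
    rw [mem_erase]
    refine ⟨?_, mem_univ _⟩
    intro h
    rw [ZMod.natCast_eq_zero_iff] at h
    exact absurd (Nat.le_of_dvd (by omega) h) (by omega)
  · intro z hz
    rw [mem_erase] at hz
    rw [mem_Ico]
    refine ⟨?_, ZMod.val_lt z⟩
    exact Nat.pos_of_ne_zero (fun h => hz.1 ((ZMod.val_eq_zero z).mp h))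
  · intro k hk
    rw [mem_Ico] at hk
    exact ZMod.val_cast_of_lt hk.2
  · intro z _
    exact ZMod.natCast_zmod_val z
  · intro k hk
    rw [mem_Ico] at hk
    rw [ZMod.val_cast_of_lt hk.2]

theorem Lam_even (χ : DirichletCharacter ℂ q) (he : χ (-1) = 1) (h1 : χ ≠ 1) : Lam χ = 0 := by
  have e1 : Lam χ = ∑ z : ZMod q, ((-z).val : ℂ) * χ z := by
    rw [Lam_eq]
    rw [← Equiv.sum_comp (Equiv.neg (ZMod q))]
    refine Finset.sum_congr rfl ?_
    intro z _
    have : χ (-z) = χ z := by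
      rw [show -z = (-1) * z by ring, map_mul, he, one_mul]
    simp [this]
  have e2 : 2 * Lam χ = ∑ z : ZMod q, (q : ℂ) * χ z := by
    rw [two_mul]
    nth_rewrite 1 [Lam_eq]
    rw [e1, ← Finset.sum_add_distrib]
    refine Finset.sum_congr rfl ?_
    intro z _
    by_cases hz : z = 0
    · subst hz
      rw [MulChar.map_zero, mul_zero, mul_zero, mul_zero, add_zero]
    · have : NeZero z := ⟨hz⟩
      rw [ZMod.val_neg_of_ne_zero z, Nat.cast_sub (ZMod.val_lt z).le]
      ring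
  rw [← Finset.mul_sum, MulChar.sum_eq_zero_of_ne_one h1, mul_zero] at e2
  simpa using e2

theorem expand (u x : ZMod q) (hx : x ≠ 0) (hu : u ≠ 0) :
    ((q - 1 : ℕ) : ℂ) * ((u * x).val : ℂ) =
      ∑ χ : DirichletCharacter ℂ q, Lam χ * χ u⁻¹ * χ x⁻¹ := by
  have hux : u * x ≠ 0 := mul_ne_zero hu hx
  have hunit : IsUnit (u * x) := isUnit_iff_ne_zero.mpr hux
  have h1 : ∀ χ : DirichletCharacter ℂ q, Lam χ * χ u⁻¹ * χ x⁻¹ =
      ∑ z : ZMod q, (z.val : ℂ) * (χ (u * x)⁻¹ * χ z) := by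
    intro χ
    rw [Lam_eq, mul_assoc, ← map_mul, ← mul_inv, Finset.sum_mul]
    refine Finset.sum_congr rfl ?_
    intro z _
    ring
  rw [Finset.sum_congr rfl (fun χ _ => h1 χ), Finset.sum_comm]
  have h2 : ∀ z : ZMod q, ∑ χ : DirichletCharacter ℂ q, (z.val : ℂ) * (χ (u * x)⁻¹ * χ z) =
      (z.val : ℂ) * (if u * x = z then (q.totient : ℂ) else 0) := by
    intro z
    rw [← Finset.mul_sum, DirichletCharacter.sum_char_inv_mul_char_eq ℂ hunit z]
  rw [Finset.sum_congr rfl (fun z _ => h2 z)]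
  rw [Finset.sum_eq_single (u * x)]
  · rw [if_pos rfl, Nat.totient_prime hqf.out]; ring
  · intro z _ hz
    rw [if_neg (Ne.symm hz), mul_zero]
  · intro h; exact absurd (mem_univ _) h

theorem expandO (u x : ZMod q) (hx : x ≠ 0) (hu : u ≠ 0) :
    ((q - 1 : ℕ) : OO) * (((u * x).val : ℕ) : OO) =
      ∑ χ : DirichletCharacter ℂ q, LO χ * chO χ u⁻¹ * chO χ x⁻¹ := by
  apply Subtype.ext
  have := expand u x hx hu
  push_cast
  simp only [LO_coe, chO_coe]
  exact this

end Pool.Agent.V5helper47.Ind
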